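import Pool.Agent.Y481.CC.Defs2
import Pool.Agent.Y117.CY.AX
import Pool.Agent.H756R3.J.Cont
import Pool.Agent.W707.TV.Gam

/-!
Closed 3-braids with their axes: the sum over levels and the continuity, for all words.
-/

set_option autoImplicit false

namespace Pool.Agent.Y977.CC

open Finset Matrix Filter
open Pool.Agent.H550R3.Jones (br brf)
open Pool.Agent.Y482.CY (B3 lv sb Nz thr bck on12 on23)
open Pool.Agent.TH193.CY (crossP2 crossN2)
open Pool.Agent.H756R3.J (zpow_cont br_cont brf_cont brf_ne)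
open Pool.Agent.W707.TV (vh vh_ne br_vh_ne)
open Pool.Agent.Y481.CC
open Pool.Agent.Y117.CYAX (thr_col bck_row)
open scoped Topology

/-- **the closed braid with its axis** -/
theorem axw : S_AXW := by
  intro v hv w a b ha hb h
  have ha0 : 0 < a := ha
  unfold tangW
  rw [dif_pos ha0]
  have h1 : ∀ x y : B3 b, (bck a b v * thr a b v) (⟨0, ha0⟩, x) (⟨0, ha0⟩, y) =
      if y = x then v ^ (-(2 * ((a : ℤ) - 1) * ((lv x : ℕ) : ℤ))) else 0 := by
    intro x y
    rw [Matrix.mul_apply, Finset.sum_eq_single (x, (⟨0, ha0⟩ : Fin a))]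
    · rw [bck_row a b v hv ha0, if_pos rfl, thr_col a b v hv h ha0]
      by_cases hxy : y = x
      · rw [if_pos hxy, hxy, if_pos rfl, ← zpow_add₀ hv]
        congr 1
        ring
      · rw [if_neg hxy, if_neg, mul_zero]
        intro e
        exact hxy (Prod.mk.inj e).1.symm
    · intro p _ hp
      rw [bck_row a b v hv ha0, if_neg hp, zero_mul]
    · intro hn
      exact absurd (Finset.mem_univ _) hn
  have h2 : ∀ x : B3 b, ∑ y : B3 b, v ^ (3 * ((b : ℤ) - 1) - 2 * (lv x : ℤ)) *
      (bck a b v * thr a b v) (⟨0, ha0⟩, x) (⟨0, ha0⟩, y) * wop b v w y x =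
      v ^ (3 * ((b : ℤ) - 1) - 2 * a * (lv x : ℤ)) * wop b v w x x := by
    intro x
    rw [Finset.sum_eq_single x]
    · rw [h1, if_pos rfl, ← zpow_add₀ hv]
      congr 2
      ring
    · intro y _ hy
      rw [h1, if_neg hy, mul_zero, zero_mul]
    · intro hn
      exact absurd (Finset.mem_univ _) hn
  rw [Finset.sum_congr rfl fun x _ => h2 x]
  unfold tauW
  simp only [Finset.mul_sum]
  rw [Finset.sum_comm]
  refine Finset.sum_congr rfl fun x _ => ?_
  have hlt : lv x < 3 * b := by
    unfold lv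
    have e1 := x.1.isLt
    have e2 := x.2.1.isLt
    have e3 := x.2.2.isLt
    omega
  rw [Finset.sum_eq_single (lv x)]
  · rw [if_pos rfl]
  · intro m _ hm
    rw [if_neg (Ne.symm hm), mul_zero]
  · intro hn
    exact absurd (Finset.mem_range.mpr hlt) hn

theorem crossP2_cont {v : ℂ} (hv : v ≠ 0) {a b : ℕ}
    (hN : ∀ k : ℕ, 0 < k → k < b → br v k ≠ 0) (p : Fin b × Fin a) (q : Fin a × Fin b) :
    ContinuousAt (fun v : ℂ => crossP2 a b v p q) v := by
  unfold crossP2
  by_cases h : (p.1 : ℕ) + p.2 = q.1 + q.2 ∧ (q.2 : ℕ) ≤ p.1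
  · simp only [h, and_self, if_true]
    refine ((((zpow_cont hv _).mul (continuousAt_id.pow _)).mul ((brf_cont hv _).div
      ((brf_cont hv _).mul (brf_cont hv _)) (mul_ne_zero (brf_ne hN q.2.2)
        (brf_ne hN (by have := p.1.2; omega))))).mul
        (tendsto_finsetProd _ fun j _ => br_cont hv _))
  · simp only [h, if_false]
    exact continuousAt_const

theorem crossN2_cont {v : ℂ} (hv : v ≠ 0) {a b : ℕ}
    (hN : ∀ k : ℕ, 0 < k → k < a → br v k ≠ 0) (p : Fin b × Fin a) (q : Fin a × Fin b) :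
    ContinuousAt (fun v : ℂ => crossN2 a b v p q) v := by
  unfold crossN2
  by_cases h : (p.1 : ℕ) + p.2 = q.1 + q.2 ∧ (q.1 : ℕ) ≤ p.2
  · simp only [h, and_self, if_true]
    refine ((((continuousAt_const.mul (zpow_cont hv _)).div (continuousAt_id.pow _)
      (pow_ne_zero _ hv)).mul ((brf_cont hv _).div
      ((brf_cont hv _).mul (brf_cont hv _)) (mul_ne_zero (brf_ne hN q.1.2)
        (brf_ne hN (by have := p.2.2; omega))))).mul
        (tendsto_finsetProd _ fun j _ => br_cont hv _))
  · simp only [h, if_false]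
    exact continuousAt_const

theorem mat_mul_cont {ι κ μ : Type} [Fintype κ] (A : ℂ → Matrix ι κ ℂ) (B : ℂ → Matrix κ μ ℂ)
    {v : ℂ} (hA : ∀ p q, ContinuousAt (fun v => A v p q) v)
    (hB : ∀ p q, ContinuousAt (fun v => B v p q) v) (p : ι) (q : μ) :
    ContinuousAt (fun v => (A v * B v) p q) v := by
  simp only [Matrix.mul_apply]
  exact tendsto_finsetSum _ fun j _ => (hA _ _).mul (hB _ _)

theorem opB_cont {v : ℂ} (hv : v ≠ 0) {b : ℕ} (hB : ∀ k : ℕ, 0 < k → k < b → br v k ≠ 0) (l : Lt)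
    (p q : B3 b) : ContinuousAt (fun v : ℂ => opB b v l p q) v := by
  obtain ⟨l1, l2⟩ := l
  cases l1 <;> cases l2
  · change ContinuousAt (fun v : ℂ => if p.2.2 = q.2.2 then
      crossN2 b b v (p.1, p.2.1) (q.1, q.2.1) else 0) v
    by_cases h : p.2.2 = q.2.2
    · simp only [if_pos h]
      exact crossN2_cont hv hB _ _
    · simp only [if_neg h]
      exact continuousAt_const
  · change ContinuousAt (fun v : ℂ => if p.2.2 = q.2.2 then
      crossP2 b b v (p.1, p.2.1) (q.1, q.2.1) else 0) v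
    by_cases h : p.2.2 = q.2.2
    · simp only [if_pos h]
      exact crossP2_cont hv hB _ _
    · simp only [if_neg h]
      exact continuousAt_const
  · change ContinuousAt (fun v : ℂ => if p.1 = q.1 then crossN2 b b v p.2 q.2 else 0) v
    by_cases h : p.1 = q.1
    · simp only [if_pos h]
      exact crossN2_cont hv hB _ _
    · simp only [if_neg h]
      exact continuousAt_const
  · change ContinuousAt (fun v : ℂ => if p.1 = q.1 then crossP2 b b v p.2 q.2 else 0) v
    by_cases h : p.1 = q.1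
    · simp only [if_pos h]
      exact crossP2_cont hv hB _ _
    · simp only [if_neg h]
      exact continuousAt_const

theorem wop_cont {v : ℂ} (hv : v ≠ 0) {b : ℕ} (hB : ∀ k : ℕ, 0 < k → k < b → br v k ≠ 0)
    (w : List Lt) : ∀ p q : B3 b, ContinuousAt (fun v : ℂ => wop b v w p q) v := by
  induction w with
  | nil =>
    intro p q
    change ContinuousAt (fun _ : ℂ => (1 : Matrix (B3 b) (B3 b) ℂ) p q) v
    exact continuousAt_const
  | cons l w ih =>
    intro p q
    have h : (fun v : ℂ => wop b v (l :: w) p q) = fun v => (opB b v l * wop b v w) p q := by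
      funext v
      unfold wop
      rw [List.map_cons, List.prod_cons]
    rw [h]
    exact mat_mul_cont (fun v => opB b v l) (fun v => wop b v w) (opB_cont hv hB l) ih p q

theorem thr_cont {v : ℂ} (hv : v ≠ 0) {a b : ℕ} (hB : ∀ k : ℕ, 0 < k → k < b → br v k ≠ 0)
    (p : B3 b × Fin a) (q : Fin a × B3 b) : ContinuousAt (fun v : ℂ => thr a b v p q) v := by
  unfold thr
  exact tendsto_finsetSum _ fun i _ => tendsto_finsetSum _ fun j _ =>
    ((crossP2_cont hv hB _ _).mul (crossP2_cont hv hB _ _)).mul (crossP2_cont hv hB _ _)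

theorem bck_cont {v : ℂ} (hv : v ≠ 0) {a b : ℕ} (hA : ∀ k : ℕ, 0 < k → k < a → br v k ≠ 0)
    (p : Fin a × B3 b) (q : B3 b × Fin a) : ContinuousAt (fun v : ℂ => bck a b v p q) v := by
  unfold bck
  exact tendsto_finsetSum _ fun i _ => tendsto_finsetSum _ fun j _ =>
    ((crossP2_cont hv hA _ _).mul (crossP2_cont hv hA _ _)).mul (crossP2_cont hv hA _ _)

/-- **continuity** -/
theorem contw : S_CONTW := by
  intro w M a b ha hb
  have hv := vh_ne M
  have hA : ∀ k : ℕ, 0 < k → k < a → br (vh M) k ≠ 0 := fun k h0 hk =>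
    br_vh_ne (M := M) (k := (k : ℤ)) (by omega) (by omega)
  have hB : ∀ k : ℕ, 0 < k → k < b → br (vh M) k ≠ 0 := fun k h0 hk =>
    br_vh_ne (M := M) (k := (k : ℤ)) (by omega) (by omega)
  by_cases h0 : 0 < a
  · have h : tangW w a b = fun v : ℂ => ∑ x : B3 b, ∑ y : B3 b,
        v ^ (3 * ((b : ℤ) - 1) - 2 * (lv x : ℤ)) *
        (bck a b v * thr a b v) (⟨0, h0⟩, x) (⟨0, h0⟩, y) * wop b v w y x := by
      funext v
      unfold tangW
      rw [dif_pos h0]
    rw [h]
    exact tendsto_finsetSum _ fun x _ => tendsto_finsetSum _ fun y _ =>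
      ((zpow_cont hv _).mul (mat_mul_cont (fun v => bck a b v) (fun v => thr a b v)
        (bck_cont hv hA) (thr_cont hv hB) _ _)).mul (wop_cont hv hB w _ _)
  · have h : tangW w a b = fun _ : ℂ => 0 := by
      funext v
      unfold tangW
      rw [dif_neg h0]
    rw [h]
    exact continuousAt_const

end Pool.Agent.Y977.CC
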